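import Pool.Agent.Helper20.EQ.St1

/-!
# Project EQ, module BNS: numbers
-/

set_option autoImplicit false

open MeasureTheory Set Filter Topology
open scoped ENNReal RealInnerProductSpace

namespace Pool.Agent.Helper39.EQ

open Pool.Agent.Helper20.RG Pool.Agent.Helper20.EQ
open Pool.Agent.Helper68.LM (Pl BB Bd Av HL ft fm DQ)
open Pool.Agent.Helper68.EP (elt GapP)

theorem bns_sq (u : ℕ) : ((u : ℝ) + 4) ^ 2 ≤ 64 * (2 : ℝ) ^ u := by
  induction u with
  | zero => norm_num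
  | succ n ih =>
    have e : (2 : ℝ) ^ (n + 1) = 2 ^ n * 2 := pow_succ _ _
    rw [e]
    push_cast
    have hn : (0 : ℝ) ≤ n := Nat.cast_nonneg n
    nlinarith

theorem bns_half (u : ℕ) : (u : ℝ) + 4 ≤ 8 * (2 : ℝ) ^ ((u : ℝ) / 2) := by
  have h := bns_sq u
  have e : (8 * (2 : ℝ) ^ ((u : ℝ) / 2)) ^ 2 = 64 * (2 : ℝ) ^ u := by
    rw [mul_pow, ← Real.rpow_natCast ((2 : ℝ) ^ ((u : ℝ) / 2)) 2, ← Real.rpow_mul (by norm_num),
      ← Real.rpow_natCast 2 u]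
    congr 1
    · norm_num
    · congr 1
      push_cast
      ring
  rw [← e] at h
  exact le_of_sq_le_sq h (by positivity)

/-- a power of two beyond `Y^3` -/
theorem bns_pow (Y q : ℝ) (u : ℕ) (hY : 1 ≤ Y) (hq : 0 ≤ q) (h : Y ^ 3 ≤ (2 : ℝ) ^ u) :
    (2 : ℝ) ^ (-(q * u)) ≤ Y ^ (-(3 / 2 * q)) * (2 : ℝ) ^ (-(q * u / 2)) := by
  have hY0 : 0 < Y := lt_of_lt_of_le zero_lt_one hY
  have e : (2 : ℝ) ^ (-(q * u)) = (2 : ℝ) ^ (-(q * u / 2)) * (2 : ℝ) ^ (-(q * u / 2)) := by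
    rw [← Real.rpow_add (by norm_num)]
    congr 1
    ring
  rw [e]
  refine mul_le_mul_of_nonneg_right ?_ (by positivity)
  have e1 : (2 : ℝ) ^ (-(q * u / 2)) = ((2 : ℝ) ^ u) ^ (-(q / 2)) := by
    rw [← Real.rpow_natCast 2 u, ← Real.rpow_mul (by norm_num)]
    congr 1
    ring
  have e2 : Y ^ (-(3 / 2 * q)) = (Y ^ 3) ^ (-(q / 2)) := by
    rw [← Real.rpow_natCast Y 3, ← Real.rpow_mul hY0.le]
    congr 1
    push_cast
    ring
  rw [e1, e2]
  exact Real.rpow_le_rpow_of_nonpos (by positivity) h (by linarith)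

theorem hBNS (hCN : StCN) (hWT : StWT) (hSS : StSS) : StBNS := by
  classical
  intro φ τ A p hG hA hP hp C₅
  obtain ⟨C₁, hC₁, hs⟩ := hSS p hp
  set ρ : ℝ := (2 : ℝ) ^ (-(1 / 4 : ℝ)) with hρ
  have hρ0 : 0 < ρ := by positivity
  have hρ1 : ρ < 1 := Real.rpow_lt_one_of_one_lt_of_neg (by norm_num) (by norm_num)
  have hp0 : 0 < p := by linarith
  have hp1 : 0 < p + 1 := by linarith
  refine ⟨(2 * C₅ + 3) * (C₁ * A * (2 : ℝ) ^ p) + (4 * C₅ + 14) * (1 - ρ)⁻¹ +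
    (C₅ + 1) * (C₁ * A), ?_, ?_⟩
  · have h1 : 0 < (1 - ρ)⁻¹ := inv_pos.2 (by linarith)
    positivity
  intro Y h θ hY hh
  have hY0 : 0 < Y := by linarith
  have hY1 : 1 ≤ Y := by linarith
  have hh1 : (1 : ℝ) ≤ h := by exact_mod_cast hh
  set β : ℝ := p / (p + 1) with hβ
  have hβ0 : 0 < β := by positivity
  have hβp : β - p = -(p ^ 2 / (p + 1)) := by rw [hβ]; field_simp; ring
  have hββ : -(β * p) = -(p ^ 2 / (p + 1)) := by rw [hβ]; field_simp
  have hYβ : 1 ≤ Y ^ β := Real.one_le_rpow hY1 hβ0.le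
  have hYβ0 : 0 < Y ^ β := by positivity
  -- L
  have hL : ∀ i, 0 ≤ elt τ θ i ∧ elt τ θ i ≤ 1 := fun i =>
    ⟨(hCN φ τ hG 0 i θ).2.2.1, (hCN φ τ hG 0 i θ).2.2.2.1⟩
  have hanti : Antitone (elt τ θ) := antitone_nat_of_succ_le (fun i => (hCN φ τ hG 0 i θ).2.2.2.2.1)
  have hs1 := (hs (elt τ θ) A (Y / 2) hL (hP θ) (by positivity)).1
  have hs2 := (hs (elt τ θ) A (Y ^ β) hL (hP θ) hYβ0).2
  -- the four parts
  set a1 : ℕ → ℝ≥0∞ := fun u => ENNReal.ofReal ((2 * C₅ + 3) * Y ^ β) *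
    ∑' i : ℕ, ENNReal.ofReal (if Y / 2 ≤ (2 : ℝ) ^ u * elt τ θ (i + 1) then
      (2 : ℝ) ^ (-(p * u)) else 0) with ha1
  set a2 : ℕ → ℝ≥0∞ := fun u => ENNReal.ofReal ((4 * C₅ + 14) * h * Y ^ (β - p) * ρ ^ u) with ha2
  set a4 : ℕ → ℝ≥0∞ := fun u => ENNReal.ofReal ((C₅ + 1) * Y ^ (-β)) *
    ∑' i : ℕ, ENNReal.ofReal (if Y ^ β ≤ (2 : ℝ) ^ u * elt τ θ (i + 1) then
      (2 : ℝ) ^ ((1 - p) * u) * elt τ θ (i + 1) else 0) with ha4
  have key : ∀ u : ℕ, (if 1 ≤ u ∧ Y ^ 3 ≤ (2 : ℝ) ^ u then ENNReal.ofReal ((2 : ℝ) ^ (-(p * u)) *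
        (Tb τ p u Y θ h + u + 1 + ∑ j ∈ (Finset.range (2 ^ u)).filter
          (fun j => |sl τ u j - θ| ≤ (2 : ℝ) ^ (-(Tb τ p u Y θ h : ℤ))),
            ((C₅ * (Wt τ u Y (sl τ u j) + h) : ℕ) + 1 : ℝ))) else 0) ≤ a1 u + a2 u + a4 u := by
    intro u
    split_ifs with hc
    swap
    · exact zero_le
    obtain ⟨hu1, hu3⟩ := hc
    obtain ⟨w1, w2, w3, w4, w5, w6⟩ := hWT φ τ A p hG hA hP hp u Y θ hu1 hY
    set Wu : ℕ := Wt τ u Y θ with hWu
    set T : ℕ := Tb τ p u Y θ h with hTdef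
    set w : ℝ := (Wu : ℝ) + h + 1 with hw
    have hw1 : 1 ≤ w := by
      have : (0 : ℝ) ≤ Wu := Nat.cast_nonneg _
      rw [hw]; linarith
    have hwY : 0 ≤ w * Y ^ β := by positivity
    have hTeq : T = ⌈w * Y ^ β⌉₊ + 2 := rfl
    have hT1 : w * Y ^ β + 2 ≤ (T : ℝ) := by
      rw [hTeq]
      push_cast
      have := Nat.le_ceil (w * Y ^ β)
      linarith
    have hT2 : (T : ℝ) ≤ w * Y ^ β + 3 := by
      rw [hTeq]
      push_cast
      have := (Nat.ceil_lt_add_one hwY).le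
      linarith
    have hwT : w + 2 ≤ (T : ℝ) := by
      have : w * 1 ≤ w * Y ^ β := mul_le_mul_of_nonneg_left hYβ (by linarith)
      linarith
    have hWT' : Wu + 2 ≤ T := by
      have : ((Wu + 2 : ℕ) : ℝ) ≤ (T : ℝ) := by
        push_cast
        have : (0 : ℝ) ≤ h := Nat.cast_nonneg _
        rw [hw] at hwT
        linarith
      exact_mod_cast this
    -- the near set
    set N : Finset ℕ := (Finset.range (2 ^ u)).filter
      (fun j => |sl τ u j - θ| ≤ (2 : ℝ) ^ (-(T : ℤ))) with hN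
    have hNc : (N.card : ℝ) ≤ 1 + (2 : ℝ) ^ u * elt τ θ T := by
      have e : nn τ u θ T = N.card := by
        unfold nn
        rw [← Set.ncard_coe_finset]
        congr 1
        ext j
        rw [hN, Finset.coe_filter]
        simp only [Set.mem_ofPred_eq, Finset.mem_range]
      rw [← e]
      exact (hCN φ τ hG u T θ).1
    have hterm : ∀ j ∈ N, ((C₅ * (Wt τ u Y (sl τ u j) + h) : ℕ) + 1 : ℝ) ≤ (C₅ + 1) * w := by
      intro j hj
      have hj' := (Finset.mem_filter.1 hj).2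
      have h1 := w3 T (sl τ u j) hWT' (by rw [abs_sub_comm]; exact hj')
      have h2 : (Wt τ u Y (sl τ u j) : ℝ) ≤ (Wu : ℝ) + 1 := by exact_mod_cast h1
      have hC : (0 : ℝ) ≤ C₅ := Nat.cast_nonneg _
      push_cast
      have h3 : (C₅ : ℝ) * (Wt τ u Y (sl τ u j) + h) ≤ C₅ * w := by
        refine mul_le_mul_of_nonneg_left ?_ hC
        rw [hw]
        linarith
      linarith
    have hsum : ∑ j ∈ N, ((C₅ * (Wt τ u Y (sl τ u j) + h) : ℕ) + 1 : ℝ) ≤
        (1 + (2 : ℝ) ^ u * elt τ θ T) * ((C₅ + 1) * w) := by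
      refine (Finset.sum_le_sum hterm).trans ?_
      rw [Finset.sum_const, nsmul_eq_mul]
      exact mul_le_mul_of_nonneg_right hNc (by positivity)
    -- the sum S
    set S : ℝ := ∑ i ∈ Finset.range T,
      (if Y ^ β ≤ (2 : ℝ) ^ u * elt τ θ (i + 1) then elt τ θ (i + 1) else 0) with hS
    have hS0 : 0 ≤ S := by
      refine Finset.sum_nonneg (fun i _ => ?_)
      split_ifs
      · exact (hL _).1
      · exact le_rfl
    have hel : 0 ≤ elt τ θ T := (hL T).1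
    have h2u : (0 : ℝ) < (2 : ℝ) ^ u := by positivity
    have hcase : (2 : ℝ) ^ u * elt τ θ T * w ≤ Y ^ β * w + (2 : ℝ) ^ u * (Y ^ (-β) * S) := by
      by_cases hcs : (2 : ℝ) ^ u * elt τ θ T ≤ Y ^ β
      · have h1 : (2 : ℝ) ^ u * elt τ θ T * w ≤ Y ^ β * w :=
          mul_le_mul_of_nonneg_right hcs (by linarith)
        have h2 : 0 ≤ (2 : ℝ) ^ u * (Y ^ (-β) * S) := by positivity
        linarith
      · push Not at hcs
        have h1 : (T : ℝ) * elt τ θ T ≤ S := by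
          have e : ∑ _i ∈ Finset.range T, elt τ θ T = (T : ℝ) * elt τ θ T := by
            rw [Finset.sum_const, Finset.card_range, nsmul_eq_mul]
          rw [← e, hS]
          refine Finset.sum_le_sum (fun i hi => ?_)
          have hi' : i + 1 ≤ T := Finset.mem_range.1 hi
          have h3 : elt τ θ T ≤ elt τ θ (i + 1) := hanti hi'
          rw [if_pos (hcs.le.trans (mul_le_mul_of_nonneg_left h3 h2u.le))]
          exact h3
        have h2 : w ≤ Y ^ (-β) * T := by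
          have h4 : w * Y ^ β ≤ T := by linarith
          rw [Real.rpow_neg hY0.le, inv_mul_eq_div, le_div_iff₀ hYβ0]
          exact h4
        have h5 : elt τ θ T * w ≤ Y ^ (-β) * S := by
          calc elt τ θ T * w ≤ elt τ θ T * (Y ^ (-β) * T) := mul_le_mul_of_nonneg_left h2 hel
            _ = Y ^ (-β) * ((T : ℝ) * elt τ θ T) := by ring
            _ ≤ _ := mul_le_mul_of_nonneg_left h1 (by positivity)
        have h6 : 0 ≤ Y ^ β * w := by positivity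
        calc (2 : ℝ) ^ u * elt τ θ T * w = (2 : ℝ) ^ u * (elt τ θ T * w) := by ring
          _ ≤ (2 : ℝ) ^ u * (Y ^ (-β) * S) := mul_le_mul_of_nonneg_left h5 h2u.le
          _ ≤ _ := by linarith
    have hC5 : (0 : ℝ) ≤ C₅ := Nat.cast_nonneg _
    have hu0 : (0 : ℝ) ≤ u := Nat.cast_nonneg _
    have hbr : (T : ℝ) + u + 1 + ∑ j ∈ N, ((C₅ * (Wt τ u Y (sl τ u j) + h) : ℕ) + 1 : ℝ) ≤
        (2 * C₅ + 3) * Y ^ β * Wu + ((2 * C₅ + 3) * Y ^ β * (h + 1) + (u + 4)) +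
          (C₅ + 1) * Y ^ (-β) * ((2 : ℝ) ^ u * S) := by
      have h1 : (C₅ + 1) * w ≤ (C₅ + 1) * (w * Y ^ β) := by
        refine mul_le_mul_of_nonneg_left ?_ (by positivity)
        have : w * 1 ≤ w * Y ^ β := mul_le_mul_of_nonneg_left hYβ (by linarith)
        linarith
      have h2 : (C₅ + 1) * ((2 : ℝ) ^ u * elt τ θ T * w) ≤
          (C₅ + 1) * (Y ^ β * w + (2 : ℝ) ^ u * (Y ^ (-β) * S)) :=
        mul_le_mul_of_nonneg_left hcase (by positivity)
      have e1 : (1 + (2 : ℝ) ^ u * elt τ θ T) * ((C₅ + 1) * w) =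
          (C₅ + 1) * w + (C₅ + 1) * ((2 : ℝ) ^ u * elt τ θ T * w) := by ring
      have e2 : (2 * C₅ + 3) * Y ^ β * Wu + ((2 * C₅ + 3) * Y ^ β * (h + 1) + (u + 4)) +
          (C₅ + 1) * Y ^ (-β) * ((2 : ℝ) ^ u * S) =
          w * Y ^ β + 3 + u + 1 + (C₅ + 1) * (w * Y ^ β) +
            (C₅ + 1) * (Y ^ β * w + (2 : ℝ) ^ u * (Y ^ (-β) * S)) := by
        rw [hw]; ring
      rw [e2]
      rw [e1] at hsum
      linarith
    -- multiply
    have h2pu : (0 : ℝ) < (2 : ℝ) ^ (-(p * u)) := by positivity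
    have hmid : (2 : ℝ) ^ (-(p * u)) * ((2 * C₅ + 3) * Y ^ β * (h + 1) + (u + 4)) ≤
        (4 * C₅ + 14) * h * Y ^ (β - p) * ρ ^ u := by
      have hρu : ρ ^ u = (2 : ℝ) ^ (-((u : ℝ) / 4)) := by
        rw [hρ, ← Real.rpow_natCast, ← Real.rpow_mul (by norm_num)]
        congr 1
        ring
      have b1 := bns_pow Y p u hY1 hp0.le hu3
      have b2 := bns_pow Y (p - 1 / 2) u hY1 (by linarith) hu3
      have c1 : (2 : ℝ) ^ (-(p * u / 2)) ≤ ρ ^ u := by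
        rw [hρu]
        refine Real.rpow_le_rpow_of_exponent_le (by norm_num) ?_
        nlinarith
      have c2 : (2 : ℝ) ^ (-((p - 1 / 2) * u / 2)) ≤ ρ ^ u := by
        rw [hρu]
        refine Real.rpow_le_rpow_of_exponent_le (by norm_num) ?_
        nlinarith
      have d1 : Y ^ β * Y ^ (-(3 / 2 * p)) ≤ Y ^ (β - p) := by
        rw [← Real.rpow_add hY0]
        refine Real.rpow_le_rpow_of_exponent_le hY1 ?_
        linarith
      have d2 : Y ^ (-(3 / 2 * (p - 1 / 2))) ≤ Y ^ (β - p) := by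
        refine Real.rpow_le_rpow_of_exponent_le hY1 ?_
        rw [hβp, neg_le_neg_iff, div_le_iff₀ hp1]
        nlinarith
      have hYp : 0 < Y ^ (β - p) := by positivity
      have hρu0 : 0 < ρ ^ u := by positivity
      -- first part
      have f1 : (2 : ℝ) ^ (-(p * u)) * Y ^ β ≤ Y ^ (β - p) * ρ ^ u := by
        calc (2 : ℝ) ^ (-(p * u)) * Y ^ β ≤
            (Y ^ (-(3 / 2 * p)) * (2 : ℝ) ^ (-(p * u / 2))) * Y ^ β :=
              mul_le_mul_of_nonneg_right b1 hYβ0.le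
          _ = (Y ^ β * Y ^ (-(3 / 2 * p))) * (2 : ℝ) ^ (-(p * u / 2)) := by ring
          _ ≤ _ := mul_le_mul d1 c1 (by positivity) hYp.le
      have f2 : (2 : ℝ) ^ (-(p * u)) * ((u : ℝ) + 4) ≤ 8 * (Y ^ (β - p) * ρ ^ u) := by
        have g1 := bns_half u
        have g2 : (2 : ℝ) ^ (-(p * u)) * (8 * (2 : ℝ) ^ ((u : ℝ) / 2)) =
            8 * (2 : ℝ) ^ (-((p - 1 / 2) * u)) := by
          rw [show (2 : ℝ) ^ (-(p * u)) * (8 * (2 : ℝ) ^ ((u : ℝ) / 2)) =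
            8 * ((2 : ℝ) ^ (-(p * u)) * (2 : ℝ) ^ ((u : ℝ) / 2)) by ring,
            ← Real.rpow_add (by norm_num)]
          congr 2
          ring
        calc (2 : ℝ) ^ (-(p * u)) * ((u : ℝ) + 4) ≤
            (2 : ℝ) ^ (-(p * u)) * (8 * (2 : ℝ) ^ ((u : ℝ) / 2)) :=
              mul_le_mul_of_nonneg_left g1 h2pu.le
          _ = 8 * (2 : ℝ) ^ (-((p - 1 / 2) * u)) := g2
          _ ≤ 8 * (Y ^ (-(3 / 2 * (p - 1 / 2))) * (2 : ℝ) ^ (-((p - 1 / 2) * u / 2))) :=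
              mul_le_mul_of_nonneg_left b2 (by norm_num)
          _ ≤ 8 * (Y ^ (β - p) * ρ ^ u) := by
              refine mul_le_mul_of_nonneg_left ?_ (by norm_num)
              exact mul_le_mul d2 c2 (by positivity) hYp.le
      have k0 : 0 ≤ Y ^ (β - p) * ρ ^ u := by positivity
      calc (2 : ℝ) ^ (-(p * u)) * ((2 * C₅ + 3) * Y ^ β * (h + 1) + (u + 4))
          = (2 * C₅ + 3) * (h + 1) * ((2 : ℝ) ^ (-(p * u)) * Y ^ β) +
            (2 : ℝ) ^ (-(p * u)) * ((u : ℝ) + 4) := by ring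
        _ ≤ (2 * C₅ + 3) * (h + 1) * (Y ^ (β - p) * ρ ^ u) + 8 * (Y ^ (β - p) * ρ ^ u) :=
            add_le_add (mul_le_mul_of_nonneg_left f1 (by positivity)) f2
        _ = ((2 * C₅ + 3) * (h + 1) + 8) * (Y ^ (β - p) * ρ ^ u) := by ring
        _ ≤ ((4 * C₅ + 14) * h) * (Y ^ (β - p) * ρ ^ u) := by
            refine mul_le_mul_of_nonneg_right ?_ k0
            nlinarith
        _ = _ := by ring
    have hreal : (2 : ℝ) ^ (-(p * u)) * ((T : ℝ) + u + 1 +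
        ∑ j ∈ N, ((C₅ * (Wt τ u Y (sl τ u j) + h) : ℕ) + 1 : ℝ)) ≤
        (2 * C₅ + 3) * Y ^ β * (Wu * (2 : ℝ) ^ (-(p * u))) +
        (4 * C₅ + 14) * h * Y ^ (β - p) * ρ ^ u +
        (C₅ + 1) * Y ^ (-β) * ((2 : ℝ) ^ ((1 - p) * u) * S) := by
      have e3 : (2 : ℝ) ^ (-(p * u)) * (2 : ℝ) ^ u = (2 : ℝ) ^ ((1 - p) * u) := by
        rw [← Real.rpow_natCast 2 u, ← Real.rpow_add (by norm_num)]
        congr 1
        ring
      calc _ ≤ (2 : ℝ) ^ (-(p * u)) * ((2 * C₅ + 3) * Y ^ β * Wu +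
            ((2 * C₅ + 3) * Y ^ β * (h + 1) + (u + 4)) +
            (C₅ + 1) * Y ^ (-β) * ((2 : ℝ) ^ u * S)) := mul_le_mul_of_nonneg_left hbr h2pu.le
        _ = (2 * C₅ + 3) * Y ^ β * (Wu * (2 : ℝ) ^ (-(p * u))) +
            (2 : ℝ) ^ (-(p * u)) * ((2 * C₅ + 3) * Y ^ β * (h + 1) + (u + 4)) +
            (C₅ + 1) * Y ^ (-β) * (((2 : ℝ) ^ (-(p * u)) * (2 : ℝ) ^ u) * S) := by ring
        _ ≤ _ := by
            rw [e3]
            linarith
    -- ENNReal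
    refine (ENNReal.ofReal_le_ofReal hreal).trans ?_
    rw [ENNReal.ofReal_add (by positivity) (by positivity),
      ENNReal.ofReal_add (by positivity) (by positivity)]
    refine add_le_add (add_le_add ?_ le_rfl) ?_
    · rw [ENNReal.ofReal_mul (by positivity)]
      refine mul_le_mul' le_rfl ?_
      have e : ENNReal.ofReal ((Wu : ℝ) * (2 : ℝ) ^ (-(p * u))) =
          ∑ i ∈ Finset.range Wu, ENNReal.ofReal (if Y / 2 ≤ (2 : ℝ) ^ u * elt τ θ (i + 1) then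
            (2 : ℝ) ^ (-(p * u)) else 0) := by
        rw [Finset.sum_congr rfl (g := fun _ => ENNReal.ofReal ((2 : ℝ) ^ (-(p * u))))]
        · rw [Finset.sum_const, Finset.card_range, nsmul_eq_mul,
            ENNReal.ofReal_mul (Nat.cast_nonneg _), ENNReal.ofReal_natCast]
        · intro i hi
          rw [if_pos (w4 (i + 1) (by omega) (Finset.mem_range.1 hi))]
      rw [e]
      exact ENNReal.sum_le_tsum _
    · rw [ENNReal.ofReal_mul (by positivity)]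
      refine mul_le_mul' le_rfl ?_
      have e : ENNReal.ofReal ((2 : ℝ) ^ ((1 - p) * u) * S) =
          ∑ i ∈ Finset.range T, ENNReal.ofReal (if Y ^ β ≤ (2 : ℝ) ^ u * elt τ θ (i + 1) then
            (2 : ℝ) ^ ((1 - p) * u) * elt τ θ (i + 1) else 0) := by
        rw [hS, Finset.mul_sum, ENNReal.ofReal_sum_of_nonneg]
        · refine Finset.sum_congr rfl (fun i _ => ?_)
          split_ifs
          · rfl
          · rw [mul_zero]
        · intro i _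
          split_ifs
          · exact mul_nonneg (by positivity) (hL _).1
          · rw [mul_zero]
      rw [e]
      exact ENNReal.sum_le_tsum _
  -- summation
  refine (ENNReal.tsum_le_tsum key).trans ?_
  rw [ENNReal.tsum_add, ENNReal.tsum_add]
  have s1 : ∑' u, a1 u ≤ ENNReal.ofReal ((2 * C₅ + 3) * (C₁ * A * (2 : ℝ) ^ p) * Y ^ (β - p)) := by
    rw [ha1, ENNReal.tsum_mul_left]
    refine (mul_le_mul' le_rfl hs1).trans ?_
    rw [← ENNReal.ofReal_mul (by positivity)]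
    refine ENNReal.ofReal_le_ofReal (le_of_eq ?_)
    rw [Real.div_rpow hY0.le (by norm_num), Real.rpow_sub hY0, Real.rpow_neg hY0.le,
      Real.rpow_neg (by norm_num)]
    field_simp
  have s2 : ∑' u, a2 u = ENNReal.ofReal ((4 * C₅ + 14) * h * Y ^ (β - p) * (1 - ρ)⁻¹) := by
    rw [ha2, ← ENNReal.ofReal_tsum_of_nonneg (fun u => by positivity)
      ((summable_geometric_of_lt_one hρ0.le hρ1).mul_left _), tsum_mul_left,
      tsum_geometric_of_lt_one hρ0.le hρ1]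
  have s4 : ∑' u, a4 u ≤ ENNReal.ofReal ((C₅ + 1) * (C₁ * A) * Y ^ (-(β * p))) := by
    rw [ha4, ENNReal.tsum_mul_left]
    refine (mul_le_mul' le_rfl hs2).trans ?_
    rw [← ENNReal.ofReal_mul (by positivity)]
    refine ENNReal.ofReal_le_ofReal (le_of_eq ?_)
    rw [← Real.rpow_mul hY0.le]
    have : Y ^ (-(β * p)) = Y ^ (-β) * Y ^ (β * (1 - p)) := by
      rw [← Real.rpow_add hY0]
      congr 1
      ring
    rw [this]
    ring
  have h1ρ : 0 < (1 - ρ)⁻¹ := inv_pos.2 (by linarith)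
  rw [s2]
  refine (add_le_add (add_le_add s1 le_rfl) s4).trans ?_
  rw [← ENNReal.ofReal_add (by positivity) (by positivity),
    ← ENNReal.ofReal_add (by positivity) (by positivity)]
  refine ENNReal.ofReal_le_ofReal ?_
  rw [hββ, hβp]
  set Q : ℝ := Y ^ (-(p ^ 2 / (p + 1))) with hQ
  have hQ0 : 0 < Q := by positivity
  have m1 : (2 * C₅ + 3) * (C₁ * A * (2 : ℝ) ^ p) * Q ≤
      (2 * C₅ + 3) * (C₁ * A * (2 : ℝ) ^ p) * (h * Q) := by
    refine mul_le_mul_of_nonneg_left ?_ (by positivity)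
    nlinarith
  have m2 : (C₅ + 1) * (C₁ * A) * Q ≤ (C₅ + 1) * (C₁ * A) * (h * Q) := by
    refine mul_le_mul_of_nonneg_left ?_ (by positivity)
    nlinarith
  calc _ ≤ (2 * C₅ + 3) * (C₁ * A * (2 : ℝ) ^ p) * (h * Q) +
        (4 * C₅ + 14) * h * Q * (1 - ρ)⁻¹ + (C₅ + 1) * (C₁ * A) * (h * Q) := by linarith
    _ = _ := by ring

end Pool.Agent.Helper39.EQ
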