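import Pool.Agent.Helper20.EQ.St1

/-!
# Project EQ, module OCN: octaves, near and far chords
-/

set_option autoImplicit false

open MeasureTheory Set Filter Topology
open scoped ENNReal RealInnerProductSpace

namespace Pool.Agent.Helper39.EQ

open Pool.Agent.Helper20.RG Pool.Agent.Helper20.EQ
open Pool.Agent.Helper68.LM (Pl BB Bd Av HL ft fm DQ)

theorem ocn_psi_nonneg (s : ℝ) (m m' V : ℕ) (ξ : Pl) : 0 ≤ Psi s m m' V ξ := by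
  unfold Psi
  positivity

theorem ocn_fac (a b : ℝ) : min 1 a ≤ 1 ∧ min 1 b ≤ 1 := ⟨min_le_left _ _, min_le_left _ _⟩

/-- the third factor -/
theorem ocn_third (V : ℕ) (b : ℝ) (hb : 0 ≤ b) :
    0 ≤ min 1 ((2 : ℝ) ^ V * b) * (1 / (1 + b)) ∧
    min 1 ((2 : ℝ) ^ V * b) * (1 / (1 + b)) ≤ 1 / (1 + b) ∧
    min 1 ((2 : ℝ) ^ V * b) * (1 / (1 + b)) ≤ (2 : ℝ) ^ V * b ∧
    min 1 ((2 : ℝ) ^ V * b) * (1 / (1 + b)) ≤ 1 := by
  have h1 : 0 ≤ min 1 ((2 : ℝ) ^ V * b) := le_min zero_le_one (by positivity)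
  have h2 : 0 ≤ 1 / (1 + b) := by positivity
  have h3 : 1 / (1 + b) ≤ 1 := by
    rw [div_le_one (by positivity)]
    linarith
  have h4 : min 1 ((2 : ℝ) ^ V * b) ≤ 1 := min_le_left _ _
  have h5 : min 1 ((2 : ℝ) ^ V * b) ≤ (2 : ℝ) ^ V * b := min_le_right _ _
  refine ⟨mul_nonneg h1 h2, ?_, ?_, ?_⟩
  · calc _ ≤ 1 * (1 / (1 + b)) := mul_le_mul_of_nonneg_right h4 h2
      _ = _ := one_mul _
  · calc _ ≤ ((2 : ℝ) ^ V * b) * 1 := mul_le_mul h5 h3 h2 (by positivity)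
      _ = _ := mul_one _
  · calc _ ≤ (1 : ℝ) * 1 := mul_le_mul h4 h3 h2 zero_le_one
      _ = _ := mul_one _

theorem ocn_two (m m' : ℕ) (r : ℝ) (hr : 0 ≤ r) :
    0 ≤ min 1 (r * (2 : ℝ) ^ (-(m' : ℤ))) * min 1 ((2 : ℝ) ^ m / r) ∧
    min 1 (r * (2 : ℝ) ^ (-(m' : ℤ))) * min 1 ((2 : ℝ) ^ m / r) ≤ 1 ∧
    min 1 (r * (2 : ℝ) ^ (-(m' : ℤ))) * min 1 ((2 : ℝ) ^ m / r) ≤ r := by
  have h1 : 0 ≤ min 1 (r * (2 : ℝ) ^ (-(m' : ℤ))) := le_min zero_le_one (by positivity)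
  have h2 : 0 ≤ min 1 ((2 : ℝ) ^ m / r) := le_min zero_le_one (by positivity)
  have h3 : min 1 (r * (2 : ℝ) ^ (-(m' : ℤ))) ≤ 1 := min_le_left _ _
  have h4 : min 1 ((2 : ℝ) ^ m / r) ≤ 1 := min_le_left _ _
  have h5 : (2 : ℝ) ^ (-(m' : ℤ)) ≤ 1 := by
    rw [zpow_neg, zpow_natCast]
    exact inv_le_one_of_one_le₀ (one_le_pow₀ (by norm_num))
  have h6 : min 1 (r * (2 : ℝ) ^ (-(m' : ℤ))) ≤ r := by
    refine (min_le_right _ _).trans ?_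
    exact mul_le_of_le_one_right hr h5
  refine ⟨mul_nonneg h1 h2, ?_, ?_⟩
  · calc _ ≤ (1 : ℝ) * 1 := mul_le_mul h3 h4 h2 zero_le_one
      _ = _ := mul_one _
  · calc _ ≤ r * 1 := mul_le_mul h6 h4 h2 hr
      _ = _ := mul_one _

/-- the bounds of `Psi` -/
theorem ocn_psi (s : ℝ) (m m' V : ℕ) (ξ : Pl) :
    Psi s m m' V ξ ≤ Pso s m m' ξ ∧ Psi s m m' V ξ ≤ ‖ξ‖ ∧
    Psi s m m' V ξ ≤ 1 / (1 + |⟪E s, ξ⟫|) ∧ Psi s m m' V ξ ≤ (2 : ℝ) ^ V * |⟪E s, ξ⟫| ∧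
    Psi s m m' V ξ ≤ 1 := by
  obtain ⟨a1, a2, a3⟩ := ocn_two m m' ‖ξ‖ (norm_nonneg ξ)
  obtain ⟨b1, b2, b3, b4⟩ := ocn_third V |⟪E s, ξ⟫| (abs_nonneg _)
  have c1 : (0 : ℝ) ≤ 1 / (1 + |⟪E s, ξ⟫|) := by positivity
  have c2 : (0 : ℝ) ≤ (2 : ℝ) ^ V * |⟪E s, ξ⟫| := by positivity
  unfold Psi Pso
  refine ⟨mul_le_mul_of_nonneg_left b2 a1, ?_, ?_, ?_, ?_⟩
  · calc _ ≤ ‖ξ‖ * 1 := mul_le_mul a3 b4 b1 (norm_nonneg ξ)
      _ = _ := mul_one _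
  · calc _ ≤ 1 * (1 / (1 + |⟪E s, ξ⟫|)) := mul_le_mul a2 b2 b1 zero_le_one
      _ = _ := one_mul _
  · calc _ ≤ 1 * ((2 : ℝ) ^ V * |⟪E s, ξ⟫|) := mul_le_mul a2 b3 b1 zero_le_one
      _ = _ := one_mul _
  · calc _ ≤ (1 : ℝ) * 1 := mul_le_mul a2 b4 b1 zero_le_one
      _ = _ := mul_one _

/-- far chords: the inner product is large -/
theorem ocn_far (hPT : StPT) (s : ℝ) (hs : |s| ≤ 1) (T : ℕ) (ξ : Pl) (hξ : ξ ≠ 0)
    (h : ¬ |s - th ξ| ≤ (2 : ℝ) ^ (-(T : ℤ))) :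
    (2 : ℝ) ^ (-(T : ℤ)) * ‖ξ‖ / 4 ≤ |⟪E s, ξ⟫| := by
  have hr : 0 < ‖ξ‖ := norm_pos_iff.2 hξ
  have e0 : (E s) 0 = 1 := (hPT.1 1 s).1
  have e1 : (E s) 1 = s := (hPT.1 1 s).2
  have hin : ⟪E s, ξ⟫ = ξ 0 + s * ξ 1 := by rw [hPT.2.2.2.1, e0, e1, one_mul]
  have hT : (2 : ℝ) ^ (-(T : ℤ)) ≤ 1 := by
    rw [zpow_neg, zpow_natCast]
    exact inv_le_one_of_one_le₀ (one_le_pow₀ (by norm_num))
  have hT0 : (0 : ℝ) < (2 : ℝ) ^ (-(T : ℤ)) := by positivity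
  push Not at h
  rw [hin]
  unfold th at h
  split_ifs at h with hc
  · have h1 : 0 < |ξ 1| := lt_of_lt_of_le (by positivity) hc
    have h1' : ξ 1 ≠ 0 := abs_pos.1 h1
    have e : ξ 0 + s * ξ 1 = ξ 1 * (s - -(ξ 0 / ξ 1)) := by field_simp; ring
    rw [e, abs_mul]
    calc (2 : ℝ) ^ (-(T : ℤ)) * ‖ξ‖ / 4 = (‖ξ‖ / 4) * (2 : ℝ) ^ (-(T : ℤ)) := by ring
      _ ≤ |ξ 1| * |s - -(ξ 0 / ξ 1)| := mul_le_mul hc h.le hT0.le (abs_nonneg _)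
  · push Not at hc
    have h2 := (hPT.2.2.1 ξ).2.2.1
    have h3 : |s * ξ 1| ≤ |ξ 1| := by
      rw [abs_mul]
      exact mul_le_of_le_one_left (abs_nonneg _) hs
    have h4 : |ξ 0| - |s * ξ 1| ≤ |ξ 0 + s * ξ 1| := by
      have := abs_sub_abs_le_abs_sub (ξ 0) (-(s * ξ 1))
      rw [abs_neg, sub_neg_eq_add] at this
      exact this
    have h5 : (2 : ℝ) ^ (-(T : ℤ)) * ‖ξ‖ ≤ ‖ξ‖ := mul_le_of_le_one_left hr.le hT
    linarith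

theorem hOCN (hPT : StPT) (hPSM : StPSM) (hOCT : StOCT) : StOCN := by
  classical
  intro C₀ hC₀
  obtain ⟨C₁, hC₁, hP⟩ := hPSM C₀ hC₀
  refine ⟨10 * (C₁ + 1) + 8, by positivity, ?_⟩
  intro u s c m m' R K A σ hS V T ξ hξ
  have hr : 0 < ‖ξ‖ := norm_pos_iff.2 hξ
  have hnorm : ∀ k : ℤ, ‖(2 : ℝ) ^ k • ξ‖ = (2 : ℝ) ^ k * ‖ξ‖ := by
    intro k
    rw [norm_smul, Real.norm_eq_abs, abs_of_pos (by positivity)]
  have hinn : ∀ (k : ℤ) (a : ℝ), |⟪E a, (2 : ℝ) ^ k • ξ⟫| = (2 : ℝ) ^ k * |⟪E a, ξ⟫| := by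
    intro k a
    rw [real_inner_smul_right, abs_mul, abs_of_pos (by positivity : (0 : ℝ) < (2 : ℝ) ^ k)]
  set Nr : Finset ℕ := (Finset.range (2 ^ u)).filter
    (fun j => |s j - th ξ| ≤ (2 : ℝ) ^ (-(T : ℤ))) with hNr
  set Fr : Finset ℕ := (Finset.range (2 ^ u)).filter
    (fun j => ¬ |s j - th ξ| ≤ (2 : ℝ) ^ (-(T : ℤ))) with hFr
  set g : ℕ → ℤ → ℝ≥0∞ := fun j k =>
    ENNReal.ofReal (Psi (s j) (m j) (m' j) (V j) ((2 : ℝ) ^ k • ξ)) with hg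
  have hsplit : (∑' k : ℤ, ∑ j ∈ Finset.range (2 ^ u), g j k) =
      (∑ j ∈ Nr, ∑' k : ℤ, g j k) + ∑' k : ℤ, ∑ j ∈ Fr, g j k := by
    have h1 : ∀ k : ℤ, (∑ j ∈ Finset.range (2 ^ u), g j k) =
        (∑ j ∈ Nr, g j k) + ∑ j ∈ Fr, g j k := by
      intro k
      rw [hNr, hFr, Finset.sum_filter_add_sum_filter_not]
    rw [tsum_congr h1, ENNReal.tsum_add]
    congr 1
    exact Summable.tsum_finsetSum (fun j _ => ENNReal.summable)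
  -- near
  have hnear : ∀ j ∈ Nr, ∑' k : ℤ, g j k ≤ ENNReal.ofReal (8 * ((V j : ℝ) + 1)) := by
    intro j _
    by_cases hb : |⟪E (s j), ξ⟫| = 0
    · have : ∀ k : ℤ, g j k = 0 := by
        intro k
        rw [hg]
        simp only
        have := (ocn_psi (s j) (m j) (m' j) (V j) ((2 : ℝ) ^ k • ξ)).2.2.2.1
        rw [hinn k (s j), hb, mul_zero, mul_zero] at this
        exact ENNReal.ofReal_of_nonpos this
      rw [tsum_congr this, tsum_zero]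
      exact zero_le
    · have hb0 : 0 < |⟪E (s j), ξ⟫| := lt_of_le_of_ne (abs_nonneg _) (Ne.symm hb)
      have h := hOCT (g j) |⟪E (s j), ξ⟫| 1 (-(V j : ℤ)) 0 hb0 zero_le_one (by simp)
        (fun k => ENNReal.ofReal_le_ofReal
          (ocn_psi (s j) (m j) (m' j) (V j) ((2 : ℝ) ^ k • ξ)).2.2.2.2) ?_ ?_
      · refine h.trans (ENNReal.ofReal_le_ofReal ?_)
        push_cast
        have : (0 : ℝ) ≤ V j := Nat.cast_nonneg _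
        linarith
      · intro k _
        refine ENNReal.ofReal_le_ofReal ?_
        have := (ocn_psi (s j) (m j) (m' j) (V j) ((2 : ℝ) ^ k • ξ)).2.2.2.1
        rw [hinn k (s j)] at this
        refine this.trans (le_of_eq ?_)
        rw [zpow_neg, zpow_natCast]
        field_simp
      · intro k _
        refine ENNReal.ofReal_le_ofReal ?_
        have := (ocn_psi (s j) (m j) (m' j) (V j) ((2 : ℝ) ^ k • ξ)).2.2.1
        rw [hinn k (s j)] at this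
        refine this.trans ?_
        rw [one_mul, zpow_zero]
        have hp : 0 < (2 : ℝ) ^ k * |⟪E (s j), ξ⟫| := by positivity
        exact one_div_le_one_div_of_le hp (by linarith)
  -- far
  have hcard : (Fr.card : ℝ) ≤ (2 : ℝ) ^ u := by
    have : Fr.card ≤ 2 ^ u := by
      rw [hFr]
      exact (Finset.card_filter_le _ _).trans (by simp)
    exact_mod_cast this
  have hfar : ∑' k : ℤ, ∑ j ∈ Fr, g j k ≤
      ENNReal.ofReal ((C₁ + 1) * ((T : ℝ) + 2 * u + 10)) := by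
    have hsumr : ∀ k : ℤ, ∑ j ∈ Fr, g j k =
        ENNReal.ofReal (∑ j ∈ Fr, Psi (s j) (m j) (m' j) (V j) ((2 : ℝ) ^ k • ξ)) := by
      intro k
      rw [ENNReal.ofReal_sum_of_nonneg (fun j _ => ocn_psi_nonneg _ _ _ _ _)]
    have h := hOCT (fun k => ∑ j ∈ Fr, g j k) ‖ξ‖ (C₁ + 1) (-(u : ℤ)) ((T : ℤ) + u + 2) hr
      (by positivity) (by omega) ?_ ?_ ?_
    · refine h.trans (ENNReal.ofReal_le_ofReal ?_)
      push_cast
      refine mul_le_mul_of_nonneg_left ?_ (by positivity)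
      linarith
    · intro k
      rw [hsumr k]
      refine ENNReal.ofReal_le_ofReal ?_
      have hk : (2 : ℝ) ^ k • ξ ≠ 0 := smul_ne_zero (by positivity) hξ
      have h1 := hP u s c m m' R K A σ hS _ hk
      have h2 : ∑ j ∈ Fr, Psi (s j) (m j) (m' j) (V j) ((2 : ℝ) ^ k • ξ) ≤
          ∑ j ∈ Finset.range (2 ^ u), Pso (s j) (m j) (m' j) ((2 : ℝ) ^ k • ξ) := by
        refine (Finset.sum_le_sum (fun j _ =>
          (ocn_psi (s j) (m j) (m' j) (V j) ((2 : ℝ) ^ k • ξ)).1)).trans ?_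
        refine Finset.sum_le_sum_of_subset_of_nonneg (Finset.filter_subset _ _) ?_
        intro j _ _
        unfold Pso
        positivity
      linarith
    · intro k _
      rw [hsumr k]
      refine ENNReal.ofReal_le_ofReal ?_
      have hk0 : (0 : ℝ) < (2 : ℝ) ^ k * ‖ξ‖ := by positivity
      have h1 : ∑ j ∈ Fr, Psi (s j) (m j) (m' j) (V j) ((2 : ℝ) ^ k • ξ) ≤
          ∑ _j ∈ Fr, (2 : ℝ) ^ k * ‖ξ‖ := by
        refine Finset.sum_le_sum (fun j _ => ?_)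
        have := (ocn_psi (s j) (m j) (m' j) (V j) ((2 : ℝ) ^ k • ξ)).2.1
        rwa [hnorm k] at this
      rw [Finset.sum_const, nsmul_eq_mul] at h1
      calc _ ≤ (Fr.card : ℝ) * ((2 : ℝ) ^ k * ‖ξ‖) := h1
        _ ≤ (2 : ℝ) ^ u * ((2 : ℝ) ^ k * ‖ξ‖) := mul_le_mul_of_nonneg_right hcard hk0.le
        _ = 1 * ((2 : ℝ) ^ k * ‖ξ‖ / (2 : ℝ) ^ (-(u : ℤ))) := by
            rw [zpow_neg, zpow_natCast]; field_simp
        _ ≤ _ := mul_le_mul_of_nonneg_right (by linarith) (by positivity)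
    · intro k _
      rw [hsumr k]
      refine ENNReal.ofReal_le_ofReal ?_
      have hk0 : (0 : ℝ) < (2 : ℝ) ^ k * ‖ξ‖ := by positivity
      have h1 : ∑ j ∈ Fr, Psi (s j) (m j) (m' j) (V j) ((2 : ℝ) ^ k • ξ) ≤
          ∑ _j ∈ Fr, 4 * (2 : ℝ) ^ T / ((2 : ℝ) ^ k * ‖ξ‖) := by
        refine Finset.sum_le_sum (fun j hj => ?_)
        have hj' := Finset.mem_filter.1 hj
        have hju : j < 2 ^ u := Finset.mem_range.1 hj'.1
        have hfr := ocn_far hPT (s j) (hS.slope j hju) T ξ hξ hj'.2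
        have h2 := (ocn_psi (s j) (m j) (m' j) (V j) ((2 : ℝ) ^ k • ξ)).2.2.1
        rw [hinn k (s j)] at h2
        refine h2.trans ?_
        have h3 : 0 < (2 : ℝ) ^ k * ((2 : ℝ) ^ (-(T : ℤ)) * ‖ξ‖ / 4) := by positivity
        have h4 : (2 : ℝ) ^ k * ((2 : ℝ) ^ (-(T : ℤ)) * ‖ξ‖ / 4) ≤
            1 + (2 : ℝ) ^ k * |⟪E (s j), ξ⟫| := by
          have := mul_le_mul_of_nonneg_left hfr (by positivity : (0 : ℝ) ≤ (2 : ℝ) ^ k)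
          linarith
        refine (one_div_le_one_div_of_le h3 h4).trans (le_of_eq ?_)
        rw [zpow_neg, zpow_natCast]
        field_simp
      rw [Finset.sum_const, nsmul_eq_mul] at h1
      have hpos : (0 : ℝ) ≤ 4 * (2 : ℝ) ^ T / ((2 : ℝ) ^ k * ‖ξ‖) := by positivity
      calc _ ≤ (Fr.card : ℝ) * (4 * (2 : ℝ) ^ T / ((2 : ℝ) ^ k * ‖ξ‖)) := h1
        _ ≤ (2 : ℝ) ^ u * (4 * (2 : ℝ) ^ T / ((2 : ℝ) ^ k * ‖ξ‖)) :=
            mul_le_mul_of_nonneg_right hcard hpos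
        _ = 1 * ((2 : ℝ) ^ ((T : ℤ) + u + 2) / ((2 : ℝ) ^ k * ‖ξ‖)) := by
            rw [zpow_add₀ (by norm_num), zpow_add₀ (by norm_num), zpow_natCast, zpow_natCast,
              show ((2 : ℝ) ^ (2 : ℤ)) = 4 by norm_num]
            ring
        _ ≤ _ := mul_le_mul_of_nonneg_right (by linarith) (by positivity)
  -- total
  have hnear' : ∑ j ∈ Nr, ∑' k : ℤ, g j k ≤ ENNReal.ofReal (8 * ∑ j ∈ Nr, ((V j : ℝ) + 1)) := by
    rw [Finset.mul_sum, ENNReal.ofReal_sum_of_nonneg (fun j _ => by positivity)]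
    exact Finset.sum_le_sum hnear
  have hsn : 0 ≤ ∑ j ∈ Nr, ((V j : ℝ) + 1) := Finset.sum_nonneg (fun j _ => by positivity)
  change (∑' k : ℤ, ∑ j ∈ Finset.range (2 ^ u), g j k) ≤ _
  rw [hsplit]
  refine (add_le_add hnear' hfar).trans ?_
  rw [← ENNReal.ofReal_add (by positivity) (by positivity)]
  refine ENNReal.ofReal_le_ofReal ?_
  have hT0 : (0 : ℝ) ≤ T := Nat.cast_nonneg _
  have hu0 : (0 : ℝ) ≤ u := Nat.cast_nonneg _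
  have k1 : (C₁ + 1) * ((T : ℝ) + 2 * u + 10) ≤ 10 * (C₁ + 1) * ((T : ℝ) + u + 1) := by
    have : (T : ℝ) + 2 * u + 10 ≤ 10 * ((T : ℝ) + u + 1) := by linarith
    calc _ ≤ (C₁ + 1) * (10 * ((T : ℝ) + u + 1)) := mul_le_mul_of_nonneg_left this (by positivity)
      _ = _ := by ring
  have k2 : 0 ≤ 10 * (C₁ + 1) * ∑ j ∈ Nr, ((V j : ℝ) + 1) := by positivity
  have k3 : 0 ≤ 8 * ((T : ℝ) + u + 1) := by positivity
  calc 8 * ∑ j ∈ Nr, ((V j : ℝ) + 1) + (C₁ + 1) * ((T : ℝ) + 2 * u + 10)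
      ≤ 8 * ∑ j ∈ Nr, ((V j : ℝ) + 1) + 10 * (C₁ + 1) * ((T : ℝ) + u + 1) := by linarith
    _ ≤ (10 * (C₁ + 1) + 8) * ((T : ℝ) + u + 1 + ∑ j ∈ Nr, ((V j : ℝ) + 1)) := by
        have e : (10 * (C₁ + 1) + 8) * ((T : ℝ) + u + 1 + ∑ j ∈ Nr, ((V j : ℝ) + 1)) =
          (8 * ∑ j ∈ Nr, ((V j : ℝ) + 1) + 10 * (C₁ + 1) * ((T : ℝ) + u + 1)) +
          (10 * (C₁ + 1) * ∑ j ∈ Nr, ((V j : ℝ) + 1) + 8 * ((T : ℝ) + u + 1)) := by ring
        rw [e]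
        linarith

end Pool.Agent.Helper39.EQ
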