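import Pool.Agent.Helper20.EQ.St1

/-!
# Project EQ, module SGE: the segment measure
-/

set_option autoImplicit false

open MeasureTheory Set Filter Topology
open scoped ENNReal RealInnerProductSpace

namespace Pool.Agent.Helper39.EQ

open Pool.Agent.Helper20.RG Pool.Agent.Helper20.EQ
open Pool.Agent.Helper68.LM (Pl BB Bd Av HL ft fm DQ)

theorem sge_int_exp (hSINC : StSINC) (a : ℝ) :
    ∫ t in Icc (-(1 / 2) : ℝ) (1 / 2), Complex.exp (((-2 * Real.pi * a * t : ℝ) : ℂ) * Complex.I) =
    ((Real.sinc (Real.pi * a) : ℝ) : ℂ) := by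
  rw [integral_Icc_eq_integral_Ioc, ← intervalIntegral.integral_of_le (by norm_num)]
  exact hSINC.2.2 a

theorem sge_cont_e (ξ : Pl) : Continuous (fun y : Pl =>
    Complex.exp (((-2 * Real.pi * ⟪y, ξ⟫ : ℝ) : ℂ) * Complex.I)) := by
  have h1 : Continuous (fun y : Pl => ⟪y, ξ⟫) := continuous_id.inner continuous_const
  exact Complex.continuous_exp.comp
    ((Complex.continuous_ofReal.comp (continuous_const.mul h1)).mul continuous_const)

theorem sge_cont (e : Pl) : Continuous (fun t : ℝ => t • e) := continuous_id.smul continuous_const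

theorem hSGE (hSINC : StSINC) : StSGE := by
  have hvI : volume (Icc (-(1 / 2) : ℝ) (1 / 2)) = 1 := by
    rw [Real.volume_Icc]
    norm_num
  have hsu : ∀ e : Pl, sge e univ = 1 := by
    intro e
    unfold sge
    rw [Measure.map_apply (sge_cont e).measurable MeasurableSet.univ, preimage_univ,
      Measure.restrict_apply_univ, hvI]
  have hball : MeasurableSet (Metric.closedBall (0 : Pl) 1)ᶜ :=
    Metric.isClosed_closedBall.measurableSet.compl
  refine ⟨?_, ?_, fun s => rfl⟩
  · intro e he
    refine ⟨⟨?_, ?_⟩, hsu e⟩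
    · unfold sge
      rw [Measure.map_apply (sge_cont e).measurable hball, Measure.restrict_apply
        ((sge_cont e).measurable hball)]
      have : (fun t : ℝ => t • e) ⁻¹' (Metric.closedBall (0 : Pl) 1)ᶜ ∩
          Icc (-(1 / 2) : ℝ) (1 / 2) = ∅ := by
        rw [eq_empty_iff_forall_notMem]
        rintro t ⟨ht1, ht2⟩
        apply ht1
        rw [mem_closedBall_zero_iff, norm_smul, Real.norm_eq_abs]
        have h6 : |t| ≤ 1 / 2 := abs_le.2 ht2
        have h12 : 0 ≤ |t| := abs_nonneg t
        have h13 : 0 ≤ ‖e‖ := norm_nonneg _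
        nlinarith
      rw [this, measure_empty]
    · rw [hsu e]
      simp
  · intro e ξ
    unfold fm sge
    rw [integral_map (sge_cont e).measurable.aemeasurable (sge_cont_e ξ).aestronglyMeasurable,
      ← sge_int_exp hSINC]
    refine integral_congr_ae (Filter.Eventually.of_forall fun t => ?_)
    simp only
    rw [real_inner_smul_left]
    congr 2
    push_cast
    ring

end Pool.Agent.Helper39.EQ
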